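import Pool.Agent.H.MP_d8b6f8_al.Defs

set_option autoImplicit false

namespace Pool.Agent.H.MP_d8b6f8_al
open Function

def A : Type := ZMod 5 × ZMod 4

instance : DecidableEq A := inferInstanceAs (DecidableEq (ZMod 5 × ZMod 4))
instance : Fintype A := inferInstanceAs (Fintype (ZMod 5 × ZMod 4))
instance : Mul A := ⟨fun a b => (a.1 + 2 ^ a.2.val * b.1, a.2 + b.2)⟩
instance : One A := ⟨((0 : ZMod 5), (0 : ZMod 4))⟩
instance : Inv A := ⟨fun a => (-(2 ^ (-a.2).val * a.1), -a.2)⟩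
instance : Group A :=
  Group.ofLeftAxioms (by decide +kernel) (by decide +kernel) (by decide +kernel)

abbrev V : Type := ZMod 3 × ZMod 3 × ZMod 3 × ZMod 3

def zt : V →+ V := AddMonoidHom.mk' (fun v => (-v.2.2.2, v.1 - v.2.2.2, v.2.1 - v.2.2.2,
  v.2.2.1 - v.2.2.2)) fun v w => by ext <;> simp <;> ring

def ph : V →+ V := AddMonoidHom.mk' (fun v => (v.1 - v.2.2.1, v.2.2.2 - v.2.2.1, v.2.1 - v.2.2.1,
  -v.2.2.1)) fun v w => by ext <;> simp <;> ring

def act (a : A) (v : V) : V := zt^[a.1.val] (ph^[a.2.val] v)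

theorem act_add (a : A) (v w : V) : act a (v + w) = act a v + act a w := by
  simp [act, iterate_map_add]

theorem act_zero (a : A) : act a 0 = 0 := by simp [act]

theorem act_neg (a : A) (v : V) : act a (-v) = -act a v := by simp [act]

theorem act_one (v : V) : act 1 v = v := rfl

theorem act_smul (a : A) (n : ℕ) (v : V) : act a (n • v) = n • act a v :=
  map_nsmul (AddMonoidHom.mk' (act a) (act_add a)) n v

theorem act_mul (a b : A) (v : V) : act (a * b) v = act a (act b v) := by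
  obtain ⟨h1, h2, h3, h4⟩ := (by decide +kernel : ∀ a b : A,
    act (a * b) (1, 0, 0, 0) = act a (act b (1, 0, 0, 0)) ∧
    act (a * b) (0, 1, 0, 0) = act a (act b (0, 1, 0, 0)) ∧
    act (a * b) (0, 0, 1, 0) = act a (act b (0, 0, 1, 0)) ∧
    act (a * b) (0, 0, 0, 1) = act a (act b (0, 0, 0, 1))) a b
  rw [(by decide +kernel : ∀ c : V, c = c.1.val • ((1, 0, 0, 0) : V) + c.2.1.val • (0, 1, 0, 0) +
    c.2.2.1.val • (0, 0, 1, 0) + c.2.2.2.val • (0, 0, 0, 1)) v]
  simp only [act_add, act_smul, h1, h2, h3, h4]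

def B : Type := V × A

instance : Finite B := inferInstanceAs (Finite (V × A))
instance : Mul B := ⟨fun x y => (x.1 + act x.2 y.1, x.2 * y.2)⟩
instance : One B := ⟨((0 : V), (1 : A))⟩
instance : Inv B := ⟨fun x => (-act x.2⁻¹ x.1, x.2⁻¹)⟩

theorem B.ext {x y : B} (h : x.1 = y.1) (h' : x.2 = y.2) : x = y := Prod.ext h h'
theorem mul1 (x y : B) : (x * y).1 = x.1 + act x.2 y.1 := rfl
theorem mul2 (x y : B) : (x * y).2 = x.2 * y.2 := rfl
theorem inv1 (x : B) : (x⁻¹).1 = -act x.2⁻¹ x.1 := rfl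
theorem inv2 (x : B) : (x⁻¹).2 = x.2⁻¹ := rfl
theorem one1 : (1 : B).1 = 0 := rfl
theorem one2 : (1 : B).2 = 1 := rfl

instance : Group B := Group.ofLeftAxioms
  (fun x y z => B.ext (by simp [mul1, mul2, act_add, act_mul, add_assoc]) (mul_assoc _ _ _))
  (fun x => B.ext (by simp [mul1, one1, one2, act_one]) (one_mul _))
  (fun x => B.ext (by simp [mul1, inv1, inv2, one1]) (inv_mul_cancel _))

def pr : B →* A := MonoidHom.mk' (fun x => x.2) fun _ _ => rfl
def inr : A →* B := MonoidHom.mk' (fun a => ((0 : V), a)) fun a b =>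
  B.ext (by simp [mul1, act_zero]) rfl
def inl : Multiplicative V →* B := MonoidHom.mk' (fun v => (v.toAdd, (1 : A))) fun _ _ =>
  B.ext rfl (mul_one _).symm
def el (v : V) : B := (v, (1 : A))

theorem el_add (v w : V) : el (v + w) = el v * el w := B.ext rfl (mul_one _).symm

theorem el_conj (x : B) (v : V) : x * el v * x⁻¹ = el (act x.2 v) :=
  B.ext (by simp [mul1, mul2, inv1, el, act_neg, ← act_mul, act_one]) (by simp [mul2, inv2, el])

theorem split (x : B) : x = el x.1 * inr x.2 :=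
  B.ext (by simp [mul1, el, inr, act_zero]) (one_mul _).symm

def rot : A →* Multiplicative (ZMod 4) := MonoidHom.mk' (fun a => .ofAdd a.2) fun _ _ => rfl

instance : Group.IsSolvable A := Group.isSolvable_of_ker_le_range
  (MonoidHom.mk' (fun i : Multiplicative (ZMod 5) => ((i.toAdd, (0 : ZMod 4)) : A))
    (by decide +kernel)) rot fun a h => ⟨.ofAdd a.1, Prod.ext rfl (congrArg (·.toAdd) h).symm⟩

instance : Group.IsSolvable B := Group.isSolvable_of_ker_le_range inl pr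
  fun a h => ⟨.ofAdd a.1, B.ext rfl (Eq.symm h)⟩

theorem irr (L : Subgroup B) {v : V} (hv : v ≠ 0) (h : el v ∈ L) {t : B} (ht : t ∈ L)
    (h1 : t.2.2 = 0) (h2 : t.2 ≠ 1) (w : V) : el w ∈ L := by
  let W : AddSubgroup V :=
    { carrier := {v | el v ∈ L}
      add_mem' := fun a b => (el_add _ _ ▸ mul_mem a b : el _ ∈ L)
      zero_mem' := one_mem L
      neg_mem' := fun {a} ha => (map_inv inl (.ofAdd a) ▸ inv_mem ha : inl (.ofAdd a)⁻¹ ∈ L) }
  have a : ∀ u ∈ W, zt u ∈ W := fun u hu => by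
    obtain ⟨k, hk⟩ : ∃ k : Fin 5, t.2 ^ k.val = ((1 : ZMod 5), (0 : ZMod 4)) :=
      (by decide +kernel : ∀ a : A, a.2 = 0 → a ≠ 1 →
        ∃ k : Fin 5, a ^ k.val = ((1 : ZMod 5), (0 : ZMod 4))) _ h1 h2
    have := mul_mem (mul_mem (pow_mem ht k) hu) (inv_mem (pow_mem ht k))
    rwa [el_conj, show (t ^ k.val).2 = t.2 ^ k.val from map_pow pr t k, hk] at this
  have b : ∀ u ∈ W, ∀ c : V, c.1.val • u + c.2.1.val • zt u + c.2.2.1.val • zt (zt u) +
      c.2.2.2.val • zt (zt (zt u)) ∈ W := fun u hu c =>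
    add_mem (add_mem (add_mem (nsmul_mem hu _) (nsmul_mem (a _ hu) _))
      (nsmul_mem (a _ (a _ hu)) _)) (nsmul_mem (a _ (a _ (a _ hu))) _)
  obtain ⟨c, hc⟩ := (by decide +kernel : ∀ u : V, u ≠ 0 → ∃ c : V, c.1.val • u + c.2.1.val • zt u +
    c.2.2.1.val • zt (zt u) + c.2.2.2.val • zt (zt (zt u)) = (1, 0, 0, 0)) v hv
  have := b _ (hc ▸ b v h c) w
  rwa [(by decide +kernel : ∀ c : V, c.1.val • ((1, 0, 0, 0) : V) + c.2.1.val • zt (1, 0, 0, 0) +
    c.2.2.1.val • zt (zt (1, 0, 0, 0)) + c.2.2.2.val • zt (zt (zt (1, 0, 0, 0))) = c) w] at this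

end Pool.Agent.H.MP_d8b6f8_al
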