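import Pool.Agent.H.MP_d8b6f8_al.A

set_option autoImplicit false

namespace Pool.Agent.H.MP_d8b6f8_al
open Function

abbrev Z3 := Multiplicative (ZMod 3)
abbrev Z5 := Multiplicative (ZMod 5)

instance : Fact (Nat.Prime 5) := ⟨by norm_num⟩

def sg : A →* Multiplicative (ZMod 2) :=
  MonoidHom.mk' (fun a => .ofAdd (a.2.val : ZMod 2)) (by decide +kernel)

def D : Subgroup A := sg.ker

instance : D.Normal := inferInstanceAs sg.ker.Normal
instance : DecidablePred (· ∈ D) := fun a => inferInstanceAs (Decidable (sg a = 1))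

def NS (G T : Type) [Group G] [Group T] : Prop := ∀ f : G →* T, ¬ Surjective f

def X : Cls := fun G _ => FS G ∧ NS G Z3 ∧ NS G Z5 ∧ NS G D ∧ NS G B

def Y : Cls := fun G _ => FS G ∧ IsPGroup 5 G

def ze : A := ((1 : ZMod 5), (0 : ZMod 4))
def ta : A := ((0 : ZMod 5), (2 : ZMod 4))

section
variable {G H T : Type} [Group G] [Group H] [Group T]

theorem FS.surj {f : G →* H} (hf : Surjective f) (h : FS G) : FS H :=
  have := h.1; have := h.2; ⟨Finite.of_surjective f hf, Group.isSolvable_of_surjective hf⟩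

theorem FS.sub (h : FS G) (K : Subgroup G) : FS K :=
  have := h.1; have := h.2; ⟨inferInstance, inferInstance⟩

theorem fsB : FS B := ⟨inferInstance, inferInstance⟩
theorem fsA : FS A := ⟨inferInstance, inferInstance⟩

theorem NS.surj {f : G →* H} (hf : Surjective f) (h : NS G T) : NS H T :=
  fun g hg => h (g.comp f) (hg.comp hf)

theorem X.surj {f : G →* H} (hf : Surjective f) (h : X G) : X H :=
  ⟨h.1.surj hf, h.2.1.surj hf, h.2.2.1.surj hf, h.2.2.2.1.surj hf, h.2.2.2.2.surj hf⟩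

theorem Y.surj {f : G →* H} (hf : Surjective f) (h : Y G) : Y H :=
  ⟨h.1.surj hf, h.2.of_surjective f hf⟩

theorem s3 (f : G →* Z3) {x : G} (h : f x ≠ 1) : Surjective f := fun z => by
  obtain ⟨k, hk⟩ := (by decide : ∀ y : Z3, y ≠ 1 → ∀ z, ∃ k : Fin 3, y ^ k.val = z) _ h z
  exact ⟨x ^ k.val, (map_pow f x k).trans hk⟩

theorem s5 (f : G →* Z5) {x : G} (h : f x ≠ 1) : Surjective f := fun z => by
  obtain ⟨k, hk⟩ := (by decide : ∀ y : Z5, y ≠ 1 → ∀ z, ∃ k : Fin 5, y ^ k.val = z) _ h z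
  exact ⟨x ^ k.val, (map_pow f x k).trans hk⟩

theorem ns_exp {n : ℕ} (h : ∀ x : G, x ^ n = 1) {y : T} (hy : y ^ n ≠ 1) : NS G T := fun f hf => by
  obtain ⟨x, rfl⟩ := hf y
  exact hy (by rw [← map_pow, h, map_one])

theorem ns_gen {S : Set G} (hS : Subgroup.closure S = ⊤) (h : ∀ x ∈ S, x ^ 4 = 1)
    (hT : ∀ y : T, y ^ 4 = 1 → y = 1) [Nontrivial T] : NS G T := fun f hf => by
  have : f = 1 := MonoidHom.eq_of_eqOn_dense hS fun x hx => hT _ (by rw [← map_pow, h x hx, map_one])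
  obtain ⟨y, hy⟩ := exists_ne (1 : T)
  obtain ⟨x, rfl⟩ := hf y
  exact hy (by simp [this])

def two (t : G) (h : t * t = 1) : Subgroup G where
  carrier := {x | x = 1 ∨ x = t}
  mul_mem' := by rintro _ _ (rfl | rfl) (rfl | rfl) <;> simp [h]
  one_mem' := Or.inl rfl
  inv_mem' := by
    rintro _ (rfl | rfl)
    · simp
    · exact Or.inr (inv_eq_of_mul_eq_one_right h)

theorem B6 {y : B} (h : y.2 * y.2 = 1) : y ^ 6 = 1 := by
  have e : y * y = el (y * y).1 := B.ext rfl h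
  rw [show y ^ 6 = y * y * (y * y) * (y * y) by simp [pow_succ, mul_assoc], e, ← el_add, ← el_add,
    (by decide : ∀ v : V, v + v + v = 0)]
  rfl

theorem X_of (h : FS G) {S : Set G} (hS : Subgroup.closure S = ⊤) (h4 : ∀ x ∈ S, x ^ 4 = 1)
    (h6 : ∀ x : G, x ^ 6 = 1) : X G :=
  ⟨h, ns_gen hS h4 (by decide), ns_gen hS h4 (by decide),
    ns_exp h6 (y := ⟨ze, by decide⟩) (fun e => absurd (congrArg Subtype.val e) (by decide)),
    ns_exp h6 (y := inr ze) fun e => absurd (congrArg pr e) (by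
      rw [map_pow, map_one]; exact (by decide : ze ^ 6 ≠ 1))⟩

theorem XK (ι : G →* B) (hι : Injective ι) (h : FS G) {t u : G} (ht : t * t = 1) (hu : u * u = 1)
    (e : (ι u).2 = (ι t).2) : X (Subgroup.closure {t, u}) := by
  have a : (ι t).2 * (ι t).2 = 1 := by rw [← mul2, ← map_mul, ht, map_one]; rfl
  have b : Subgroup.closure {t, u} ≤ (two _ a).comap (pr.comp ι) := (Subgroup.closure_le _).2 (by
    rintro _ (rfl | rfl)
    exacts [Or.inr rfl, Or.inr e])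
  refine X_of (h.sub _) (Subgroup.closure_preimage_eq_top _) ?_ fun x => Subtype.ext (hι ?_)
  · rintro x (hx | hx) <;> apply Subtype.ext
    · rw [show 4 = 2 * 2 from rfl, pow_mul, SubmonoidClass.coe_pow, SubmonoidClass.coe_pow,
        show x.1 = t from hx, sq t, ht, one_pow]; rfl
    · rw [show 4 = 2 * 2 from rfl, pow_mul, SubmonoidClass.coe_pow, SubmonoidClass.coe_pow,
        show x.1 = u from hx, sq u, hu, one_pow]; rfl
  · rw [SubmonoidClass.coe_pow, map_pow, OneMemClass.coe_one, map_one]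
    rcases b x.2 with h | h
    · exact B6 (by rw [show (ι x).2 = 1 from h, mul_one])
    · exact B6 (by rw [show (ι x).2 = _ from h, a])

theorem genD (L : Subgroup A) {t a : A} (ht : t ∈ L) (h2 : t.2 = 2) (ha : a ∈ L) (haD : a ∈ D)
    (h1 : a ≠ 1) (h3 : a ≠ t) : D ≤ L := fun d hd => by
  obtain ⟨k, hk | hk⟩ := (by decide +kernel : ∀ t a : A, t.2 = 2 → a ∈ D → a ≠ 1 → a ≠ t →
    ∀ d ∈ D, ∃ k : Fin 10, d = (a * t) ^ k.val ∨ d = (a * t * a * t) ^ k.val * t ∨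
      d = a ^ k.val ∨ d = a ^ k.val * t) t a h2 haD h1 h3 d hd
  · exact hk ▸ pow_mem (mul_mem ha ht) _
  · rcases hk with hk | hk | hk
    · exact hk ▸ mul_mem (pow_mem (mul_mem (mul_mem (mul_mem ha ht) ha) ht) _) ht
    · exact hk ▸ pow_mem ha _
    · exact hk ▸ mul_mem (pow_mem ha _) ht

theorem rotfree (g : G →* A) (h : ∀ x, (g x).2 = 0) (hX : X G) (x : G) : g x = 1 := by
  by_contra hx
  refine hX.2.2.1 (MonoidHom.mk' (fun x => Multiplicative.ofAdd (g x).1) fun a b => ?_)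
    (s5 _ (x := x) fun e => hx (Prod.ext (congrArg (·.toAdd) e) (h x)))
  rw [map_mul]
  exact (by decide : ∀ a b : A, a.2 = 0 →
    Multiplicative.ofAdd (a * b).1 = .ofAdd a.1 * .ofAdd b.1) _ _ (h a)

theorem caseD (g : G →* A) (h : ∀ x, g x ∈ D) (hn : ∀ a ∈ g.range, ze * a * ze⁻¹ ∈ g.range)
    (hX : X G) (x : G) : g x = 1 := by
  refine rotfree g (fun y => by_contra fun hy => hX.2.2.2.1 (g.codRestrict D h) fun d => ?_) hX x
  obtain ⟨a1, a2, a3, a4⟩ := (by decide +kernel : ∀ a ∈ D, a.2 ≠ 0 → a.2 = 2 ∧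
    ze * a * ze⁻¹ ∈ D ∧ ze * a * ze⁻¹ ≠ 1 ∧ ze * a * ze⁻¹ ≠ a) _ (h y) hy
  obtain ⟨z, hz⟩ := genD g.range ⟨y, rfl⟩ a1 (hn _ ⟨y, rfl⟩) a2 a3 a4 d.2
  exact ⟨z, Subtype.ext hz⟩

theorem minN (K : Subgroup B) [hK : K.Normal] (h : K ≠ ⊥) (w : V) : el w ∈ K := by
  obtain ⟨⟨x, hx⟩, h1⟩ := Subgroup.ne_bot_iff_exists_ne_one.1 h
  obtain ⟨v, hv, hv'⟩ : ∃ v ≠ 0, el v ∈ K := by
    by_cases h2 : x.2 = 1
    · exact ⟨x.1, fun e => h1 (Subtype.ext (B.ext e h2)), (B.ext rfl h2 : x = el x.1) ▸ hx⟩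
    · obtain ⟨u, hu⟩ := (by decide +kernel : ∀ a : A, a ≠ 1 → ∃ u, act a u + -u ≠ 0) _ h2
      refine ⟨_, hu, ?_⟩
      have := mul_mem hx (hK.conj_mem _ (inv_mem hx) (el u))
      rwa [← mul_assoc, ← mul_assoc, el_conj, show (el u)⁻¹ = el (-u) from
        (map_inv inl (.ofAdd u)).symm, ← el_add] at this
  have a : ∀ u, el u ∈ K ↔ el u ∈ K ⊓ pr.ker ⊔ Subgroup.zpowers (inr ze) := fun u => by
    refine ⟨fun h => Subgroup.mem_sup_left ⟨h, rfl⟩, fun h => ?_⟩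
    obtain ⟨y, hy, _, ⟨k, rfl⟩, e⟩ := Subgroup.mem_sup_of_normal_left.1 h
    have : ze ^ k = 1 := by
      have := congrArg pr e
      rwa [map_mul, map_zpow, show pr y = 1 from hy.2, one_mul] at this
    rw [← e]
    simpa [← map_zpow, this] using hy.1
  exact (a w).2 (irr _ hv ((a v).1 hv') (Subgroup.mem_sup_right (Subgroup.mem_zpowers _)) rfl
    (by decide) w)

theorem caseB (g : G →* B) [hn : g.range.Normal] (hX : X G) (x : G) : g x = 1 := by
  by_contra hx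
  have a := minN g.range fun e => hx (Subgroup.mem_bot.1 (e ▸ ⟨x, rfl⟩))
  have n : ∀ b, ∀ a ∈ (pr.comp g).range, b * a * b⁻¹ ∈ (pr.comp g).range := by
    rintro b _ ⟨y, rfl⟩
    obtain ⟨z, hz⟩ := hn.conj_mem _ ⟨y, rfl⟩ (inr b)
    exact ⟨z, congrArg pr hz⟩
  by_cases h : ∀ x, (g x).2 ∈ D
  · have b := caseD (pr.comp g) h (n ze) hX
    obtain ⟨y, hy⟩ := a (1, 0, 0, 0)
    refine hX.2.1 (MonoidHom.mk' (fun x => Multiplicative.ofAdd (g x).1.1) fun a c => ?_)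
      (s3 _ (x := y) ?_)
    · rw [map_mul, mul1, show (g a).2 = 1 from b a]; rfl
    · simp only [MonoidHom.mk'_apply, hy]; decide
  · push Not at h
    obtain ⟨y, hy⟩ := h
    refine hX.2.2.2.2 g fun z => ?_
    obtain ⟨k, l, e⟩ := (by decide +kernel : ∀ a ∉ D, ∀ b, ∃ (k : Fin 5) (l : Fin 4),
      (ze * a * ze⁻¹ * a⁻¹) ^ k.val * a ^ l.val = b) _ hy z.2
    obtain ⟨u, hu⟩ : z.2 ∈ (pr.comp g).range := e ▸ mul_mem (pow_mem (mul_mem (n ze _ ⟨y, rfl⟩)
      (inv_mem (⟨y, rfl⟩ : _ ∈ (pr.comp g).range))) _)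
        (pow_mem (⟨y, rfl⟩ : _ ∈ (pr.comp g).range) _)
    obtain ⟨u', hu'⟩ := a (z * (g u)⁻¹).1
    refine ⟨u' * u, ?_⟩
    rw [map_mul, hu', ← eq_mul_inv_iff_mul_eq]
    exact B.ext rfl (by rw [mul2, inv2, ← hu]; exact (mul_inv_cancel _).symm)

theorem ns_ext (N : Subgroup G) [hN : N.Normal] (h : NS (G ⧸ N) T)
    (h' : ∀ g : N →* T, g.range.Normal → ∀ x, g x = 1) : NS G T := fun f hf => by
  have := h' (f.comp N.subtype) (by
    rw [MonoidHom.range_comp, Subgroup.range_subtype]; exact hN.map f hf)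
  exact h (QuotientGroup.lift N f fun x hx => this ⟨x, hx⟩) fun y =>
    (hf y).elim fun x hx => ⟨x, hx⟩

end

theorem X_idem : Idem X := fun G _ => by
  refine ⟨fun h => ⟨h.1, ⊥, inferInstance, ?_, h.surj (QuotientGroup.mk'_surjective _)⟩, ?_⟩
  · exact X_of (h.1.sub _) (S := ∅) (Subsingleton.elim _ _) (by simp) fun _ => Subsingleton.elim _ _
  · rintro ⟨h, N, _, h1, h2⟩
    refine ⟨h, ns_ext N h2.2.1 fun g _ x => by_contra fun e => h1.2.1 g (s3 g e),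
      ns_ext N h2.2.2.1 fun g _ x => by_contra fun e => h1.2.2.1 g (s5 g e),
      ns_ext N h2.2.2.2.1 fun g hg x => Subtype.ext (caseD (D.subtype.comp g) (fun x => (g x).2)
        ?_ h1 x), ns_ext N h2.2.2.2.2 fun g _ x => caseB g h1 x⟩
    rintro _ ⟨y, rfl⟩
    obtain ⟨z, hz⟩ := hg.conj_mem _ ⟨y, rfl⟩ ⟨ze, by decide⟩
    exact ⟨z, congrArg Subtype.val hz⟩

theorem mem_inr {x : B} : x ∈ inr.range ↔ x.1 = 0 :=
  ⟨by rintro ⟨a, rfl⟩; rfl, fun h => ⟨x.2, B.ext h.symm rfl⟩⟩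

theorem coat : IsCoatom inr.range := by
  refine ⟨fun h => absurd (mem_inr.1 (h.ge (Subgroup.mem_top (el (1, 0, 0, 0))))) (by decide),
    fun K hK => eq_top_iff.2 fun z _ => ?_⟩
  obtain ⟨x, hx, hx'⟩ := SetLike.exists_of_lt hK
  have : el x.1 ∈ K := by
    have := mul_mem hx (inv_mem (hK.le ⟨x.2, rfl⟩))
    rwa [show x * (inr x.2)⁻¹ = el x.1 from mul_inv_eq_of_eq_mul (split x)] at this
  exact split z ▸ mul_mem (irr K (mt mem_inr.2 hx') this (hK.le ⟨ze, rfl⟩) rfl (by decide) _)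
    (hK.le ⟨z.2, rfl⟩)

theorem prim_bot {T : Type} [Group T] [Nontrivial T]
    (h : ∀ K : Subgroup T, ∀ x : K, K.subtype x ≠ 1 → Surjective K.subtype) : Primitive T := by
  refine ⟨⊥, ⟨bot_ne_top, fun K hK => eq_top_iff.2 fun z _ => ?_⟩,
    eq_bot_iff.2 (Subgroup.normalCore_le _)⟩
  obtain ⟨x, hx⟩ := Subgroup.ne_bot_iff_exists_ne_one.1 hK.ne'
  obtain ⟨y, rfl⟩ := h K x (fun e => hx (Subtype.ext e)) z
  exact y.2

theorem hz : ze ∈ D := by decide
theorem ht : ta ∈ D := by decide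

theorem primD : Primitive D := by
  refine ⟨two ⟨ta, ht⟩ (Subtype.ext (by decide)), ⟨fun h => absurd (h.ge (Subgroup.mem_top
    ⟨ze, hz⟩)) (by rintro (h | h) <;> exact absurd (congrArg Subtype.val h) (by decide)), fun K hK =>
      eq_top_iff.2 fun z _ => ?_⟩, eq_bot_iff.2 fun x hx => ?_⟩
  · obtain ⟨x, hx, hx'⟩ := SetLike.exists_of_lt hK
    obtain ⟨y, hy, e⟩ := genD (K.map D.subtype) ⟨_, hK.le (Or.inr rfl), rfl⟩ rfl ⟨x, hx, rfl⟩ x.2
      (fun e => hx' (Or.inl (Subtype.ext e))) (fun e => hx' (Or.inr (Subtype.ext e))) z.2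
    exact (Subtype.ext e : y = z) ▸ hy
  · rcases Subgroup.normalCore_le _ hx with h | rfl
    · exact h
    · rcases hx ⟨ze, hz⟩ with h | h <;> exact absurd (congrArg Subtype.val h) (by decide)

theorem primB : Primitive B := ⟨_, coat, by_contra fun h =>
  absurd (mem_inr.1 (Subgroup.normalCore_le _ (minN _ h (1, 0, 0, 0)))) (by decide)⟩

theorem X_sch : IsSchunck X :=
  ⟨fun _ _ h => h.1, fun _ _ _ _ _ hf h => h.surj hf, fun _ _ h h' => ⟨h,
    fun f hf => (h' _ f hf (prim_bot fun _ _ => s3 _)).2.1 (.id _) surjective_id,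
    fun f hf => (h' _ f hf (prim_bot fun _ _ => s5 _)).2.2.1 (.id _) surjective_id,
    fun f hf => (h' _ f hf primD).2.2.2.1 (.id _) surjective_id,
    fun f hf => (h' _ f hf primB).2.2.2.2 (.id _) surjective_id⟩⟩

end Pool.Agent.H.MP_d8b6f8_al
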