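import Pool.Agent.H.MP_d8b6f8_al.B

set_option autoImplicit false

namespace Pool.Agent.H.MP_d8b6f8_al
open Function Subgroup

def QC (C : Cls) : Prop :=
  ∀ (G H : Type) [Group G] [Group H] (f : G →* H), Surjective f → C G → C H

section
variable {G H : Type} [Group G] [Group H] {C : Cls}

theorem qc_map (hC : QC C) (f : G →* H) {S : Subgroup G} (h : C S) : C (S.map f) :=
  hC _ _ (f.subgroupMap S) (f.subgroupMap_surjective S) h

theorem proj_img (hC : QC C) {S : Subgroup G} (h : Proj C S) (f : G →* H) (hf : Surjective f) :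
    MaxSub C (S.map f) := by
  let e := QuotientGroup.quotientKerEquivOfSurjective f hf
  have a : (S.map (QuotientGroup.mk' f.ker)).map e.toMonoidHom = S.map f := by
    rw [map_map]; rfl
  have b : (S.map f).map e.symm.toMonoidHom = S.map (QuotientGroup.mk' f.ker) := by
    rw [← a, map_map]; simp
  refine ⟨a ▸ qc_map hC _ (h f.ker).1, fun K hK hX => (h f.ker).2 _ ?_
    (qc_map hC e.symm.toMonoidHom hX)⟩
  rw [← b]
  exact (map_lt_map_iff_of_injective e.symm.injective).2 hK

theorem proj_max (hC : QC C) {S : Subgroup G} (h : Proj C S) : MaxSub C S :=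
  map_id S ▸ proj_img hC h (.id G) surjective_id

theorem max_top (hC : QC C) {S : Subgroup G} (h : MaxSub C S) (hG : C G) : S = ⊤ :=
  by_contra fun e => h.2 ⊤ (lt_top_iff_ne_top.2 e) 
    (hC _ _ (topEquiv (G := G)).symm.toMonoidHom (fun x => ⟨x.1, rfl⟩) hG)

theorem co_map {M : Subgroup G} (hM : IsCoatom M) {f : G →* H} (hf : Surjective f)
    {K : Subgroup H} (hK : M.map f < K) : K = ⊤ := by
  have := hM.2 (K.comap f) ((map_le_iff_le_comap.1 hK.le).lt_of_ne fun e => hK.ne (by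
    rw [e, map_comap_eq_self_of_surjective hf]))
  rw [← map_comap_eq_self_of_surjective hf K, this, map_top_of_surjective f hf]

theorem vfree (g : G →* B) (h : ∀ x, (g x).2 = 1) (hX : X G) (x : G) : g x = 1 := by
  have a : ∀ φ : V →+ ZMod 3, φ (g x).1 = 0 := fun φ => by_contra fun e =>
    hX.2.1 (MonoidHom.mk' (fun x => Multiplicative.ofAdd (φ (g x).1)) fun a c => by
      rw [map_mul, mul1, h a, act_one, map_add]; rfl) (s3 _ (x := x) e)
  exact B.ext (Prod.ext (a (.fst _ _)) (Prod.ext (a ((AddMonoidHom.fst _ _).comp (.snd _ _)))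
    (Prod.ext (a ((AddMonoidHom.fst _ _).comp ((AddMonoidHom.snd _ _).comp (.snd _ _))))
      (a ((AddMonoidHom.snd _ _).comp ((AddMonoidHom.snd _ _).comp (.snd _ _))))))) (h x)

end

theorem qX : QC X := X_sch.2.1
theorem qY : QC Y := fun _ _ _ _ _ hf h => h.surj hf

theorem full {L : Subgroup B} (h : ∀ w, el w ∈ L) {z : B} (hz : z.2 ∈ L.map pr) : z ∈ L := by
  obtain ⟨l, hl, e⟩ := hz
  have : z * l⁻¹ = el (z * l⁻¹).1 :=
    B.ext rfl (by rw [mul2, inv2, ← e]; exact mul_inv_cancel _)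
  simpa using mul_mem (this ▸ h _ : z * l⁻¹ ∈ L) hl

theorem cardB : Nat.card B = 1620 := by
  show Nat.card (V × (ZMod 5 × ZMod 4)) = _
  simp

theorem XA : X A := by
  have a : closure {x : A | x ^ 4 = 1} = ⊤ := eq_top_iff.2 fun z _ => by
    obtain ⟨x, y, hx, hy, rfl⟩ := (by decide +kernel :
      ∀ z : A, ∃ x y, x ^ 4 = 1 ∧ y ^ 4 = 1 ∧ z = x * y) z
    exact mul_mem (subset_closure hx) (subset_closure hy)
  refine ⟨fsA, ns_gen a (fun _ h => h) (by decide), ns_gen a (fun _ h => h) (by decide),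
    fun f hf => ?_, fun f hf => absurd (Nat.card_le_card_of_surjective f hf) (by
      rw [cardB, Nat.card_eq_fintype_card]; decide)⟩
  let y : A := ((0 : ZMod 5), (1 : ZMod 4))
  have h1 : ta ∈ f.ker := by
    have : (f y).1 ^ 4 = 1 := by
      rw [← SubmonoidClass.coe_pow, ← map_pow, show y ^ 4 = 1 by decide, map_one]; rfl
    rw [MonoidHom.mem_ker, show ta = y ^ 2 by decide, map_pow]
    exact Subtype.ext ((by decide +kernel : ∀ d ∈ D, d ^ 4 = 1 → d ^ 2 = 1) _ (f y).2 this)
  obtain ⟨x, hx⟩ := hf ⟨ze, hz⟩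
  have := genD f.ker h1 rfl (Normal.conj_mem inferInstance _ h1 ze) (by decide) (by decide)
    (by decide) ((by decide : ∀ x : A, x * x ∈ D) x)
  rw [MonoidHom.mem_ker, map_mul, hx] at this
  exact absurd (congrArg Subtype.val this) (by decide)

theorem nXB : ¬ X B := fun h => h.2.2.2.2 (.id _) surjective_id

theorem refl {t : B} (h : t * t = 1) (h2 : t.2.2 = 2) :
    ∃ w ≠ 0, el w * t * (el w * t) = 1 := by
  obtain ⟨w, hw, e⟩ := (by decide +kernel : ∀ a : A, a.2 = 2 → ∃ w ≠ 0, w + act a w = 0) _ h2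
  refine ⟨w, hw, ?_⟩
  rw [show el w * t * (el w * t) = el w * (t * el w * t⁻¹) * (t * t) by group, h, mul_one, el_conj,
    ← el_add, e]
  rfl

theorem q1 : ∃ M : Subgroup B, MaxSub X M ∧ ¬ Proj X M := by
  have h : inr ta * inr ta = 1 := by rw [← map_mul, show ta * ta = 1 by decide, map_one]
  obtain ⟨w, hw, e⟩ := refl h rfl
  obtain ⟨M, hM, hm⟩ := Finite.exists_le_maximal (p := fun K : Subgroup B => X K)
    (XK (.id B) injective_id fsB h e (one_mul _))
  refine ⟨M, ⟨hm.prop, fun K hK => hm.not_prop_of_gt hK⟩, fun hp => ?_⟩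
  have a := max_top qX (proj_img qX hp pr fun a => ⟨inr a, rfl⟩) XA
  obtain ⟨m, hm', e'⟩ : ze ∈ M.map pr := a ▸ mem_top _
  have b : el w ∈ M := by
    simpa using mul_mem (hM (subset_closure (Or.inr rfl)))
      (inv_mem (hM (subset_closure (Or.inl rfl))))
  have c := irr M hw b hm' (by rw [show m.2 = ze from e']; rfl)
    (by rw [show m.2 = ze from e']; decide)
  exact nXB (hm.prop.surj (f := M.subtype) fun z => ⟨⟨z, full c (a ▸ mem_top _)⟩, rfl⟩)

end Pool.Agent.H.MP_d8b6f8_al
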