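import Mathlib

set_option autoImplicit false

namespace Pool.Agent.H.MP_d8b6f8_al

/-- A class of groups, as a predicate. -/
def Cls : Type 1 := ∀ (G : Type) [Group G], Prop

/-- Finite and soluble. -/
def FS (G : Type) [Group G] : Prop := Finite G ∧ Group.IsSolvable G

/-- Some maximal subgroup has trivial core. -/
def Primitive (G : Type) [Group G] : Prop := ∃ M : Subgroup G, IsCoatom M ∧ M.normalCore = ⊥

/-- A Schunck class of finite soluble groups. -/
def IsSchunck (X : Cls) : Prop :=
  (∀ (G : Type) [Group G], X G → FS G) ∧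
  (∀ (G H : Type) [Group G] [Group H] (f : G →* H), Function.Surjective f → X G → X H) ∧
  ∀ (G : Type) [Group G], FS G →
    (∀ (H : Type) [Group H] (f : G →* H), Function.Surjective f → Primitive H → X H) → X G

/-- The class equals its square. -/
def Idem (X : Cls) : Prop := ∀ (G : Type) [Group G],
  X G ↔ FS G ∧ ∃ (N : Subgroup G) (_ : N.Normal), X N ∧ X (G ⧸ N)

/-- A maximal `X`-subgroup. -/
def MaxSub (X : Cls) {G : Type} [Group G] (H : Subgroup G) : Prop :=
  X H ∧ ∀ K : Subgroup G, H < K → ¬ X K

/-- An `X`-projector. -/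
def Proj (X : Cls) {G : Type} [Group G] (H : Subgroup G) : Prop :=
  ∀ (N : Subgroup G) [N.Normal], MaxSub X (H.map (QuotientGroup.mk' N))

/-- The join in the lattice of Schunck classes. -/
def join (X Y : Cls) : Cls := fun G _ =>
  FS G ∧ ∀ S T : Subgroup G, Proj X S → Proj Y T → S ⊔ T = ⊤

end Pool.Agent.H.MP_d8b6f8_al
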