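import Pool.Agent.H.MP_d8b6f8_al.C

set_option autoImplicit false

namespace Pool.Agent.H.MP_d8b6f8_al
open Function Subgroup QuotientGroup

theorem Y_sch : IsSchunck Y := by
  refine ⟨fun _ _ h => h.1, qY, fun G _ h h' => ⟨h, ?_⟩⟩
  have := h.1
  obtain ⟨P⟩ : Nonempty (Sylow 5 G) := inferInstance
  rcases eq_top_or_exists_le_coatom P.1 with e | ⟨M, hM, e⟩
  · exact (e ▸ P.2 : IsPGroup 5 (⊤ : Subgroup G)).of_equiv topEquiv
  have s := mk'_surjective M.normalCore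
  have k : (mk' M.normalCore).ker ≤ M := by rw [ker_mk']; exact normalCore_le M
  have a := h' _ _ s ⟨M.map (mk' _), ⟨fun e => hM.1 (by
    rw [← comap_map_eq_self k, e, comap_top]), fun K => co_map hM s⟩, by
      rw [← map_comap_eq_self_of_surjective s (normalCore _), Subgroup.map_eq_bot_iff,
        ker_mk', normal_le_normalCore]
      exact (comap_mono (normalCore_le _)).trans (comap_map_eq_self k).le⟩
  obtain ⟨n, hn⟩ := a.2.index (M.map (mk' _))
  rw [index_map_eq _ s k] at hn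
  rcases n with _ | n
  · exact absurd (index_eq_one.1 hn) hM.1
  · exact absurd ((hn ▸ dvd_pow_self 5 n.succ_ne_zero).trans (index_dvd_of_le e)) P.not_dvd_index

theorem Y_idem : Idem Y := fun G _ => by
  refine ⟨fun h => ⟨h.1, ⊥, inferInstance, ⟨h.1.sub _, IsPGroup.of_bot⟩,
    h.surj (mk'_surjective _)⟩, ?_⟩
  rintro ⟨h, N, _, h1, h2⟩
  refine ⟨h, fun g => ?_⟩
  obtain ⟨k, hk⟩ := h2.2 (g : G ⧸ N)
  obtain ⟨l, hl⟩ := h1.2 ⟨g ^ 5 ^ k, (eq_one_iff _).1 hk⟩
  exact ⟨k + l, by rw [pow_add, pow_mul]; exact congrArg Subtype.val hl⟩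

def N : Subgroup B := (sg.comp pr).ker

instance : N.Normal := inferInstanceAs (sg.comp pr).ker.Normal

theorem el_N (v : V) : el v ∈ N := map_one sg

theorem inr_surj (K : Subgroup B) [K.Normal] (h : ∀ w, el w ∈ K) :
    Surjective ((mk' K).comp inr) := fun z => by
  obtain ⟨z, rfl⟩ := mk'_surjective K z
  refine ⟨z.2, ?_⟩
  conv_rhs => rw [split z, map_mul, show mk' K (el z.1) = 1 from (eq_one_iff _).2 (h _), one_mul]
  rfl

theorem jQ : join X Y (B ⧸ N) := ⟨fsB.surj (mk'_surjective _), fun S T hS _ => by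
  rw [max_top qX (proj_max qX hS) (XA.surj (inr_surj N el_N)), top_sup_eq]⟩

theorem pS : Proj X inr.range := fun K _ => by
  refine ⟨qc_map qX _ (XA.surj inr.rangeRestrict_surjective), fun L hL hX => ?_⟩
  obtain rfl := co_map coat (mk'_surjective K) hL
  by_cases h : K = ⊥
  · subst h
    exact nXB (hX.surj (f := (topEquiv.trans quotientBot).toMonoidHom)
      (topEquiv.trans quotientBot).surjective)
  · exact hL.ne (by
      rw [← MonoidHom.range_comp, MonoidHom.range_eq_top]; exact inr_surj K (minN K h))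

theorem z5 : Nat.card (zpowers (inr ze)) = 5 ^ 1 := by
  rw [Nat.card_zpowers, pow_one]
  exact orderOf_eq_prime (by rw [← map_pow, show ze ^ 5 = 1 by decide, map_one])
    fun e => absurd (congrArg pr e : ze = 1) (by decide)

theorem pT : Proj Y (zpowers (inr ze)) := fun K _ => by
  have a : ¬ 5 ∣ (zpowers (inr ze)).index := by
    have := (zpowers (inr ze)).card_mul_index
    rw [z5, cardB] at this
    omega
  let P := ((IsPGroup.of_card z5).toSylow a).mapSurjective (mk'_surjective K)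
  exact ⟨⟨(fsB.surj (mk'_surjective K)).sub _, P.2⟩, fun L hL hY => hL.ne' (P.3 hY.2 hL.le)⟩

theorem njB : ¬ join X Y B := fun h => coat.1 (by
  rw [← h.2 _ _ pS pT, sup_eq_left.2 (zpowers_le.2 (mem_inr.2 rfl))])

theorem exT {T : Subgroup N} (h : MaxSub Y T) : ∃ t ∈ T, t.1.2.2 = 0 ∧ t.1.2 ≠ 1 := by
  have hz : inr ze ∈ N := hz
  have : T ≠ ⊥ := by
    rintro rfl
    refine h.2 (zpowers ⟨_, hz⟩) (bot_lt_iff_ne_bot.2 (zpowers_ne_bot.2 fun e =>
      absurd (congrArg (·.1.2) e : ze = 1) (by decide))) ⟨(fsB.sub _).sub _, .of_card (n := 1) ?_⟩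
    rw [← z5, Nat.card_zpowers, Nat.card_zpowers, orderOf_mk]
  obtain ⟨t, ht⟩ := ne_bot_iff_exists_ne_one.1 this
  obtain ⟨k, hk⟩ := h.1.2 t
  have e : t.1.1 ^ 5 ^ k = 1 := congrArg (·.1.1) hk
  refine ⟨t.1, t.2, ?_, fun a => ht (Subtype.ext (Subtype.ext ?_))⟩
  · exact congrArg (·.toAdd) ((pow_eq_one_iff_of_coprime (a := rot (pr t.1.1))
      (Nat.Coprime.pow_left k (by decide : Nat.Coprime 5 4))).1
        ⟨by rw [← map_pow, ← map_pow, e, map_one, map_one], (by decide : ∀ a, rot a ^ 4 = 1) _⟩)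
  · exact (pow_eq_one_iff_of_coprime (Nat.Coprime.pow_left k (by decide : Nat.Coprime 5 6))).1
      ⟨e, B6 (by rw [a, mul_one])⟩

theorem exS {S : Subgroup N} (h : MaxSub X S) : ∃ t ∈ S, t * t = 1 ∧ t.1.2.2 = 2 := by
  obtain ⟨s, hs, e⟩ : ∃ s ∈ S, s.1.2.2 ≠ 0 := by
    by_contra! a
    have b := vfree (N.subtype.comp S.subtype)
      (rotfree (pr.comp (N.subtype.comp S.subtype)) (fun x => a x x.2) h.1) h.1
    let t : N := ⟨inr ta, ht⟩
    have c : t * t = 1 := Subtype.ext (by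
      show inr ta * inr ta = 1
      rw [← map_mul, show ta * ta = 1 by decide, map_one])
    refine h.2 _ (lt_of_le_of_ne (fun x hx => ?_) fun e => ?_)
      (XK N.subtype N.subtype_injective (fsB.sub _) c c rfl)
    · rw [show x = 1 from Subtype.ext (b ⟨x, hx⟩)]; exact one_mem _
    · exact absurd (a t (e ▸ subset_closure (Or.inl rfl))) (by decide)
  obtain ⟨a, b⟩ := (by decide : ∀ a ∈ D, a.2 ≠ 0 → a * a = 1 ∧ (a ^ 3).2 = 2) _ s.2 e
  refine ⟨s ^ 3, pow_mem hs 3, Subtype.ext ?_, ?_⟩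
  · rw [← pow_add]; exact B6 a
  · rwa [show (s ^ 3).1.2 = s.1.2 ^ 3 from map_pow pr s.1 3]

theorem jN : join X Y N := ⟨fsB.sub _, fun S T hS hT => by
  obtain ⟨t, ht, t1, t2⟩ := exT (proj_max qY hT)
  have hS := proj_max qX hS
  obtain ⟨s, hs, s1, s2⟩ := exS hS
  let L := (S ⊔ T).map N.subtype
  by_cases h : ∃ v ≠ 0, el v ∈ L
  · obtain ⟨v, hv, h⟩ := h
    have a : t.1 ∈ L := ⟨t, mem_sup_right ht, rfl⟩
    refine eq_top_iff.2 fun z _ => ?_
    obtain ⟨y, hy, e⟩ := full (irr L hv h a t1 t2) (genD (L.map pr)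
      ⟨s, ⟨s, mem_sup_left hs, rfl⟩, rfl⟩ s2 ⟨t, a, rfl⟩ t.2 t2
        (fun e => absurd (t1.symm.trans ((congrArg (·.2) e).trans s2)) (by decide)) z.2)
    exact (Subtype.ext e : y = z) ▸ hy
  push Not at h
  have a : ∀ x ∈ S, x.1.2 = 1 → x = 1 := fun x hx e => by
    have b : x.1 = el x.1.1 := B.ext rfl e
    exact Subtype.ext (B.ext (by_contra fun c => h _ c ⟨x, mem_sup_left hx, b⟩) e)
  obtain ⟨w, hw, e⟩ := refl (congrArg Subtype.val s1) s2
  let u : N := ⟨el w, el_N w⟩ * s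
  refine absurd (XK N.subtype N.subtype_injective (fsB.sub _) s1 (u := u) (Subtype.ext e)
    (one_mul _)) (hS.2 _ (lt_of_le_of_ne (fun x hx => ?_) fun e => h w hw ⟨u * s⁻¹,
      mem_sup_left (mul_mem (e ▸ subset_closure (Or.inr rfl)) (inv_mem hs)), by simp [u]⟩))
  by_cases b : x.1.2 = 1
  · rw [a x hx b]; exact one_mem _
  by_cases c : x.1.2 = s.1.2
  · rw [mul_inv_eq_one.1 (a _ (mul_mem hx (inv_mem hs)) (mul_inv_eq_one.2 c))]
    exact subset_closure (Or.inl rfl)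
  let g := pr.comp (N.subtype.comp S.subtype)
  refine absurd (fun d => ?_) (hS.1.2.2.2.1 (g.codRestrict D fun x => x.1.2))
  obtain ⟨z, hz⟩ := genD g.range ⟨⟨s, hs⟩, rfl⟩ s2 ⟨⟨x, hx⟩, rfl⟩ x.2 b c d.2
  exact ⟨z, Subtype.ext hz⟩⟩

theorem q2 : ¬ Idem (join X Y) := fun h => njB ((h B).2 ⟨fsB, N, inferInstance, jN, jQ⟩)

end Pool.Agent.H.MP_d8b6f8_al
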